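import Pool.Agent.Helper96.EL.Goals

/-!
# Packet EL-NS
-/

open NumberField Height IsDedekindDomain WithZero

namespace Pool.Agent.Helper50.EL

open Pool.Agent.Helper96.EL

universe u

theorem exists_place (k : Type u) [Field k] [NumberField k] :
    Nonempty (HeightOneSpectrum (𝓞 k)) := by
  have := Pool.Agent.Results.MP_e44225_nt.SUnitDisproof.infinite_finitePlace (k := k)
  obtain ⟨w⟩ := (inferInstance : Nonempty (FinitePlace k))
  exact ⟨w.maximalIdeal⟩

/-- every element has valuation at most `exp N` for some `N` -/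
theorem val_le {k : Type u} [Field k] (v : Valuation k ℤᵐ⁰) (c : k) : ∃ N : ℕ, v c ≤ exp (N : ℤ) := by
  by_cases h : v c = 0
  · exact ⟨0, by rw [h]; exact zero_le'⟩
  · refine ⟨(WithZero.log (v c)).toNat, ?_⟩
    rw [← WithZero.exp_log h, WithZero.exp_le_exp, WithZero.log_exp]
    exact Int.self_le_toNat _

theorem core {k : Type u} [Field k] (v : Valuation k ℤᵐ⁰) (W : WeierstrassCurve.Affine k)
    (h4 : (2 : k) ≠ 0) :
    ∃ T : ℤ, ∀ t : ℤ, T ≤ t → Odd t → ∀ x : k, v x = exp t → ¬ IsSquare (psi W x) := by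
  obtain ⟨N1, hN1⟩ := val_le v W.b₂
  obtain ⟨N2, hN2⟩ := val_le v (2 * W.b₄)
  obtain ⟨N3, hN3⟩ := val_le v W.b₆
  have h2 : v 2 ≠ 0 := (Valuation.ne_zero_iff v).2 h4
  obtain ⟨m, hm⟩ : ∃ m : ℤ, v 2 = exp m := ⟨WithZero.log (v 2), (WithZero.exp_log h2).symm⟩
  refine ⟨(N1 : ℤ) + N2 + N3 + 1 + |2 * m|, ?_⟩
  intro t ht hodd x hx hsq
  have habs := abs_nonneg (2 * m)
  have habs2 := neg_abs_le (2 * m)
  have hx0 : x ≠ 0 := by
    rintro rfl
    rw [map_zero] at hx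
    exact WithZero.exp_ne_zero hx.symm
  have hv4 : v (4 * x ^ 3) = exp (2 * m + 3 * t) := by
    rw [map_mul, map_pow, hx, show (4 : k) = 2 * 2 by norm_num, map_mul, hm, ← WithZero.exp_add,
      ← WithZero.exp_nsmul, ← WithZero.exp_add]
    congr 1
    simp
    ring
  have hA : v (W.b₂ * x ^ 2) < exp (2 * m + 3 * t) := by
    rw [map_mul, map_pow, hx, ← WithZero.exp_nsmul]
    calc v W.b₂ * exp (2 • t) ≤ exp (N1 : ℤ) * exp (2 • t) := mul_le_mul_left hN1 _
      _ = exp ((N1 : ℤ) + 2 • t) := (WithZero.exp_add _ _).symm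
      _ < exp (2 * m + 3 * t) := by
        rw [WithZero.exp_lt_exp]
        simp
        omega
  have hB : v (2 * W.b₄ * x) < exp (2 * m + 3 * t) := by
    rw [map_mul, hx]
    calc v (2 * W.b₄) * exp t ≤ exp (N2 : ℤ) * exp t := mul_le_mul_left hN2 _
      _ = exp ((N2 : ℤ) + t) := (WithZero.exp_add _ _).symm
      _ < exp (2 * m + 3 * t) := by
        rw [WithZero.exp_lt_exp]
        omega
  have hC : v W.b₆ < exp (2 * m + 3 * t) := by
    calc v W.b₆ ≤ exp (N3 : ℤ) := hN3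
      _ < exp (2 * m + 3 * t) := by
        rw [WithZero.exp_lt_exp]
        omega
  have hψ : v (psi W x) = exp (2 * m + 3 * t) := by
    unfold psi
    have h1 : v (4 * x ^ 3 + W.b₂ * x ^ 2) = exp (2 * m + 3 * t) := by
      rw [Valuation.map_add_eq_of_lt_left v (by rw [hv4]; exact hA), hv4]
    have h3 : v (4 * x ^ 3 + W.b₂ * x ^ 2 + 2 * W.b₄ * x) = exp (2 * m + 3 * t) := by
      rw [Valuation.map_add_eq_of_lt_left v (by rw [h1]; exact hB), h1]
    rw [Valuation.map_add_eq_of_lt_left v (by rw [h3]; exact hC), h3]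
  obtain ⟨z, hz⟩ := hsq
  rw [hz, map_mul] at hψ
  have hz0 : v z ≠ 0 := by
    intro h
    rw [h, zero_mul] at hψ
    exact WithZero.exp_ne_zero hψ.symm
  rw [← WithZero.exp_log hz0, ← WithZero.exp_add, WithZero.exp_inj] at hψ
  obtain ⟨s, hs⟩ := hodd
  omega

theorem ns : NS.{u} := by
  intro k _ _ W B
  obtain ⟨v⟩ := exists_place k
  obtain ⟨p, hp⟩ := v.valuation_exists_uniformizer k
  obtain ⟨T, hT⟩ := core (v.valuation k) W (two_ne_zero)
  have hval : ∀ j : ℕ, v.valuation k ((p ^ (2 * j + 1))⁻¹) = exp ((2 * j + 1 : ℕ) : ℤ) := by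
    intro j
    rw [map_inv₀, map_pow, hp, ← WithZero.exp_nsmul, ← WithZero.exp_neg]
    congr 1
    simp
  have hinj : Function.Injective (fun j : ℕ => (p ^ (2 * j + 1))⁻¹) := by
    intro i j h
    have h : (p ^ (2 * i + 1))⁻¹ = (p ^ (2 * j + 1))⁻¹ := h
    have h1 := hval i
    rw [h, hval j, WithZero.exp_inj] at h1
    omega
  have hfin : {j : ℕ | logHeight₁ ((p ^ (2 * j + 1))⁻¹) ≤ B}.Finite := by
    have h1 : {x : k | logHeight₁ x ≤ B}.Finite := Northcott.finite_le B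
    exact h1.preimage hinj.injOn
  obtain ⟨j, hj⟩ := (hfin.union (Set.finite_le_nat T.toNat)).exists_notMem
  rw [Set.mem_union, not_or] at hj
  obtain ⟨hj1, hj2⟩ := hj
  have hj1 : ¬ logHeight₁ ((p ^ (2 * j + 1))⁻¹) ≤ B := hj1
  have hj2 : ¬ j ≤ T.toNat := hj2
  refine ⟨(p ^ (2 * j + 1))⁻¹, not_le.1 hj1, ?_⟩
  refine hT ((2 * j + 1 : ℕ) : ℤ) ?_ ?_ _ (hval j)
  · omega
  · exact ⟨(j : ℤ), by push_cast; ring⟩

end Pool.Agent.Helper50.EL
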